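import Pool.Agent.H96R3.BC.Stmts

/-! TASK G1 of project BIGCOEF (helper96). -/

set_option autoImplicit false

open Finset

namespace Pool.Agent.H312F.BC

open Pool.Agent.H96R3.BC

/-- products over squarefree numbers. -/
lemma sum_sqfree_le (T : Finset ℕ) (g : ℕ → ℝ) (hg : ∀ p, 0 ≤ g p) (σ : ℝ)
    (h : ∑ p ∈ (Iic (T.sup id)).filter Nat.Prime, g p / p ≤ σ) :
    ∑ m ∈ T.filter (fun m => Squarefree m ∧ 1 < m), (∏ p ∈ m.primeFactors, g p) / m ≤
      Real.exp σ - 1 := by
  classical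
  set S := (Iic (T.sup id)).filter Nat.Prime with hS
  have e1 : ∑ m ∈ T.filter (fun m => Squarefree m ∧ 1 < m), (∏ p ∈ m.primeFactors, g p) / m =
      ∑ m ∈ T.filter (fun m => Squarefree m ∧ 1 < m), ∏ p ∈ m.primeFactors, (g p / p) := by
    refine Finset.sum_congr rfl fun m hm => ?_
    have hsq := (Finset.mem_filter.1 hm).2.1
    rw [Finset.prod_div_distrib]
    congr 1
    have := Nat.prod_primeFactors_of_squarefree hsq
    conv_lhs => rw [← this]
    push_cast
    rfl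
  have e2 : ∑ m ∈ T.filter (fun m => Squarefree m ∧ 1 < m), ∏ p ∈ m.primeFactors, (g p / p) =
      ∑ F ∈ (T.filter (fun m => Squarefree m ∧ 1 < m)).image Nat.primeFactors,
        ∏ p ∈ F, (g p / p) := by
    rw [Finset.sum_image]
    intro a ha b hb hab
    have ha' := (Finset.mem_filter.1 ha).2.1
    have hb' := (Finset.mem_filter.1 hb).2.1
    have h1 := Nat.prod_primeFactors_of_squarefree ha'
    have h2 := Nat.prod_primeFactors_of_squarefree hb'
    rw [← h1, ← h2, hab]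
  have hsub : (T.filter (fun m => Squarefree m ∧ 1 < m)).image Nat.primeFactors ⊆
      S.powerset.erase ∅ := by
    intro F hF
    obtain ⟨m, hm, rfl⟩ := Finset.mem_image.1 hF
    obtain ⟨hmT, hsq, h1⟩ := Finset.mem_filter.1 hm
    refine Finset.mem_erase.2 ⟨?_, Finset.mem_powerset.2 fun p hp => ?_⟩
    · rw [Ne, Nat.primeFactors_eq_empty]; omega
    · refine Finset.mem_filter.2 ⟨Finset.mem_Iic.2 ?_, Nat.prime_of_mem_primeFactors hp⟩
      exact (Nat.le_of_mem_primeFactors hp).trans (Finset.le_sup (f := id) hmT)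
  have hnn : ∀ p, 0 ≤ g p / (p : ℝ) := fun p => div_nonneg (hg p) (Nat.cast_nonneg p)
  have e3 : ∑ F ∈ S.powerset.erase ∅, ∏ p ∈ F, (g p / (p : ℝ)) =
      (∏ p ∈ S, (1 + g p / (p : ℝ))) - 1 := by
    rw [Finset.prod_one_add, ← Finset.sum_erase_add _ _ (Finset.empty_mem_powerset S)]
    simp
  have e4 : ∏ p ∈ S, (1 + g p / (p : ℝ)) ≤ Real.exp σ := by
    calc ∏ p ∈ S, (1 + g p / (p : ℝ)) ≤ ∏ p ∈ S, Real.exp (g p / p) := by
          refine Finset.prod_le_prod (fun p _ => by have := hnn p; linarith) fun p _ => ?_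
          rw [add_comm]; exact Real.add_one_le_exp _
      _ = Real.exp (∑ p ∈ S, g p / p) := (Real.exp_sum _ _).symm
      _ ≤ Real.exp σ := Real.exp_le_exp.2 h
  rw [e1, e2]
  calc ∑ F ∈ (T.filter (fun m => Squarefree m ∧ 1 < m)).image Nat.primeFactors,
        ∏ p ∈ F, (g p / p) ≤ ∑ F ∈ S.powerset.erase ∅, ∏ p ∈ F, (g p / (p : ℝ)) :=
        Finset.sum_le_sum_of_subset_of_nonneg hsub fun F _ _ =>
          Finset.prod_nonneg fun p _ => hnn p
    _ = (∏ p ∈ S, (1 + g p / (p : ℝ))) - 1 := e3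
    _ ≤ Real.exp σ - 1 := by linarith

/-- telescoping bound. -/
lemma tail_log (N : ℕ) (hN : 2 ≤ N) (M : ℕ) :
    ∑ n ∈ Ioc N (N + M), 2 / ((n : ℝ) * (Real.log n) ^ 2) ≤
      2 / Real.log N - 2 / Real.log ((N + M : ℕ) : ℝ) := by
  induction M with
  | zero => simp
  | succ M ih =>
    have e : Ioc N (N + (M + 1)) = insert (N + (M + 1)) (Ioc N (N + M)) := by
      ext x; simp only [mem_Ioc, mem_insert]; omega
    rw [e, Finset.sum_insert (by simp)]
    set k : ℕ := N + M with hk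
    have hk2 : 2 ≤ k := by omega
    have hk' : N + (M + 1) = k + 1 := by omega
    rw [hk']
    have hkr : (2 : ℝ) ≤ k := by exact_mod_cast hk2
    have l1 : 0 < Real.log k := Real.log_pos (by linarith)
    have l2 : Real.log k ≤ Real.log ((k + 1 : ℕ) : ℝ) :=
      Real.log_le_log (by linarith) (by push_cast; linarith)
    have l3 : 1 / ((k + 1 : ℕ) : ℝ) ≤ Real.log ((k + 1 : ℕ) : ℝ) - Real.log k := by
      have h1 : Real.log ((k : ℝ) / ((k + 1 : ℕ) : ℝ)) ≤ (k : ℝ) / ((k + 1 : ℕ) : ℝ) - 1 :=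
        Real.log_le_sub_one_of_pos (by positivity)
      rw [Real.log_div (by positivity) (by positivity)] at h1
      have h2 : (k : ℝ) / ((k + 1 : ℕ) : ℝ) - 1 = - (1 / ((k + 1 : ℕ) : ℝ)) := by
        push_cast; field_simp; ring
      rw [h2] at h1
      linarith
    have l4 : 0 < Real.log ((k + 1 : ℕ) : ℝ) := by linarith
    have key : 2 / (((k + 1 : ℕ) : ℝ) * (Real.log ((k + 1 : ℕ) : ℝ)) ^ 2) ≤
        2 / Real.log k - 2 / Real.log ((k + 1 : ℕ) : ℝ) := by
      set a := Real.log k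
      set b := Real.log ((k + 1 : ℕ) : ℝ)
      set x := ((k + 1 : ℕ) : ℝ) with hx
      have hxp : 0 < x := by rw [hx]; positivity
      have e1 : 2 / a - 2 / b = 2 * (b - a) / (a * b) := by field_simp
      rw [e1]
      have e2 : 2 / (x * b ^ 2) = 2 * (1 / x) / (b * b) := by field_simp
      rw [e2]
      gcongr
    linarith

/-- the series over integers above `N`. -/
lemma sum_log_le (N : ℕ) (hN : 2 ≤ N) (S : Finset ℕ) :
    ∑ n ∈ S.filter (fun n => N < n), 2 / ((n : ℝ) * (Real.log n) ^ 2) ≤ 2 / Real.log N := by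
  have h1 : S.filter (fun n => N < n) ⊆ Ioc N (N + S.sup id) := by
    intro n hn
    obtain ⟨h1, h2⟩ := Finset.mem_filter.1 hn
    have := Finset.le_sup (f := id) h1
    simp only [id] at this
    rw [mem_Ioc]; omega
  refine (Finset.sum_le_sum_of_subset_of_nonneg h1 fun n _ _ => by positivity).trans ?_
  refine (tail_log N hN _).trans ?_
  have : 0 ≤ 2 / Real.log ((N + S.sup id : ℕ) : ℝ) := by
    have : 0 ≤ Real.log ((N + S.sup id : ℕ) : ℝ) := Real.log_natCast_nonneg _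
    positivity
  linarith

lemma window_bound {C₁ : ℝ} {X : ℕ → ℕ} {P0 : ℕ → Finset ℕ} {a0 : ℕ → ℝ}
    (hB : Base C₁ X P0 a0) (i : ℕ) (hL : 4 ≤ Real.log (X i)) :
    ∑ p ∈ P0 i, a0 p / p ≤ 722 / Real.log (X i) := by
  set L := Real.log (X i) with hLdef
  have hXpos : (0 : ℝ) < X i := by
    by_contra h
    have h0 : X i = 0 := by
      have : (X i : ℝ) ≤ 0 := not_lt.1 h
      have h2 : (0 : ℝ) ≤ X i := Nat.cast_nonneg _
      exact_mod_cast le_antisymm this h2
    rw [hLdef, h0] at hL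
    simp at hL
    norm_num at hL
  have hXe : (X i : ℝ) = Real.exp L := by rw [hLdef, Real.exp_log hXpos]
  -- number of elements
  have hcard : ((P0 i).card : ℝ) ≤ X i / DD (X i) + 1 := by
    have h := hB.sparse i (X i) (X i)
    have : (Ioc (X i) (X i + X i)).filter (fun p => p ∈ P0 i) = P0 i := by
      ext p
      simp only [mem_filter, mem_Ioc]
      constructor
      · exact fun h => h.2
      · intro hp
        have := hB.mem i p hp
        exact ⟨⟨this.2.1, by omega⟩, hp⟩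
    rwa [this] at h
  have hA : 0 < AA (X i) := Real.exp_pos _
  have h1 : ∑ p ∈ P0 i, a0 p / p ≤ (P0 i).card * (AA (X i) / X i) := by
    rw [← nsmul_eq_mul]
    refine Finset.sum_le_card_nsmul _ _ _ fun p hp => ?_
    rw [hB.val i p hp]
    have hp' := hB.mem i p hp
    have : (X i : ℝ) ≤ p := by exact_mod_cast hp'.2.1.le
    gcongr
  have h2 : ((P0 i).card : ℝ) * (AA (X i) / X i) ≤ (X i / DD (X i) + 1) * (AA (X i) / X i) :=
    mul_le_mul_of_nonneg_right hcard (by positivity)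
  -- evaluate
  set t := Real.sqrt L with ht
  have hLt : L = t ^ 2 := by rw [ht, Real.sq_sqrt (by linarith)]
  have ht2 : 2 ≤ t := by
    rw [ht]; exact Real.le_sqrt_of_sq_le (by linarith)
  have hAA : AA (X i) = Real.exp t := rfl
  have hDD : DD (X i) = Real.exp (2 * t) / L ^ 2 := rfl
  have h3 : (X i / DD (X i) + 1) * (AA (X i) / X i) =
      L ^ 2 * Real.exp (-t) + Real.exp (t - L) := by
    rw [hAA, hDD, hXe, Real.exp_sub, Real.exp_neg, two_mul, Real.exp_add]
    have hL0 : L ≠ 0 := by linarith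
    field_simp
  have h4 : L ^ 2 * Real.exp (-t) ≤ 720 / L := by
    have h5 : t ^ 6 / 720 ≤ Real.exp t := by
      have := Real.pow_div_factorial_le_exp t (by linarith) 6
      simpa [Nat.factorial] using this
    rw [Real.exp_neg, hLt]
    rw [← div_eq_mul_inv, div_le_div_iff₀ (Real.exp_pos _) (by positivity)]
    nlinarith [h5]
  have h6 : Real.exp (t - L) ≤ 2 / L := by
    have h7 : t - L ≤ -(L / 2) := by
      rw [hLt]; nlinarith
    have h8 : L / 2 ≤ Real.exp (L / 2) := by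
      have := Real.add_one_le_exp (L / 2); linarith
    calc Real.exp (t - L) ≤ Real.exp (-(L / 2)) := Real.exp_le_exp.2 h7
      _ = (Real.exp (L / 2))⁻¹ := Real.exp_neg _
      _ ≤ (L / 2)⁻¹ := inv_anti₀ (by linarith) h8
      _ = 2 / L := by rw [inv_div]
  calc ∑ p ∈ P0 i, a0 p / p ≤ _ := h1
    _ ≤ _ := h2
    _ = _ := h3
    _ ≤ 720 / L + 2 / L := add_le_add h4 h6
    _ = 722 / L := by ring

lemma log_X_ge {C₁ : ℝ} {X : ℕ → ℕ} {P0 : ℕ → Finset ℕ} {a0 : ℕ → ℝ}
    (hB : Base C₁ X P0 a0) (L₀ : ℝ) (h0 : L₀ ≤ Real.log (X 0)) (hL₀ : 4 ≤ L₀) :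
    ∀ i, L₀ * 2 ^ i ≤ Real.log (X i) := by
  intro i
  induction i with
  | zero => simpa using h0
  | succ i ih =>
    have hpos : 0 < Real.log (X i) := by
      have : (1 : ℝ) ≤ 2 ^ i := one_le_pow₀ (by norm_num)
      nlinarith
    have hX : (0 : ℝ) < X i := by
      by_contra h
      have h2 : (X i : ℝ) = 0 := le_antisymm (not_lt.1 h) (Nat.cast_nonneg _)
      rw [h2] at hpos
      simp at hpos
    have h1 := hB.tower i
    have h2 : Real.exp ((X i : ℝ) ^ 2) ≤ Real.log (X (i + 1)) := by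
      rw [← Real.log_exp (Real.exp ((X i : ℝ) ^ 2))]
      exact Real.log_le_log (Real.exp_pos _) h1
    have h3 : (X i : ℝ) ^ 2 + 1 ≤ Real.exp ((X i : ℝ) ^ 2) := Real.add_one_le_exp _
    have h4 : Real.log (X i) ≤ (X i : ℝ) - 1 := Real.log_le_sub_one_of_pos hX
    have h5 : 2 * Real.log (X i) ≤ (X i : ℝ) ^ 2 + 1 := by nlinarith [sq_nonneg ((X i : ℝ) - 1)]
    calc L₀ * 2 ^ (i + 1) = 2 * (L₀ * 2 ^ i) := by ring
      _ ≤ 2 * Real.log (X i) := by linarith
      _ ≤ _ := by linarith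

lemma base_sum {C₁ : ℝ} {X : ℕ → ℕ} {P0 : ℕ → Finset ℕ} {a0 : ℕ → ℝ}
    (hB : Base C₁ X P0 a0) (L₀ : ℝ) (h0 : L₀ ≤ Real.log (X 0)) (hL₀ : 4 ≤ L₀) (S : Finset ℕ) :
    ∑ p ∈ S.filter (fun p => a0 p ≠ 0), a0 p / p ≤ 1444 / L₀ := by
  classical
  have hlog := log_X_ge hB L₀ h0 hL₀
  have hex : ∀ p, a0 p ≠ 0 → ∃ i, p ∈ P0 i := by
    intro p hp
    by_contra h
    push Not at h
    exact hp (hB.off p h)
  choose! ι hι using hex
  set N := (S.filter (fun p => a0 p ≠ 0)).sup ι with hN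
  have hnn : ∀ i, ∀ p ∈ P0 i, 0 ≤ a0 p / (p : ℝ) := by
    intro i p hp
    rw [hB.val i p hp]
    exact div_nonneg (Real.exp_pos _).le (Nat.cast_nonneg _)
  have hsub : S.filter (fun p => a0 p ≠ 0) ⊆ (range (N + 1)).biUnion P0 := by
    intro p hp
    rw [Finset.mem_biUnion]
    refine ⟨ι p, ?_, hι p (Finset.mem_filter.1 hp).2⟩
    rw [Finset.mem_range, Nat.lt_succ_iff]
    exact Finset.le_sup (f := ι) hp
  have h1 : ∑ p ∈ S.filter (fun p => a0 p ≠ 0), a0 p / p ≤
      ∑ p ∈ (range (N + 1)).biUnion P0, a0 p / p := by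
    refine Finset.sum_le_sum_of_subset_of_nonneg hsub fun p hp _ => ?_
    obtain ⟨i, _, hi⟩ := Finset.mem_biUnion.1 hp
    exact hnn i p hi
  have h2 : ∑ p ∈ (range (N + 1)).biUnion P0, a0 p / p ≤
      ∑ i ∈ range (N + 1), ∑ p ∈ P0 i, a0 p / p := by
    -- sub-additivity over unions
    have gen : ∀ R : Finset ℕ, ∑ p ∈ R.biUnion P0, a0 p / p ≤
        ∑ i ∈ R, ∑ p ∈ P0 i, a0 p / p := by
      intro R
      induction R using Finset.induction_on with
      | empty => simp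
      | insert a s ha ih =>
        rw [Finset.biUnion_insert, Finset.sum_insert ha]
        have := Finset.sum_union_inter (s₁ := P0 a) (s₂ := s.biUnion P0)
          (f := fun p => a0 p / (p : ℝ))
        have h3 : 0 ≤ ∑ p ∈ P0 a ∩ s.biUnion P0, a0 p / (p : ℝ) :=
          Finset.sum_nonneg fun p hp => hnn a p (Finset.mem_inter.1 hp).1
        linarith
    exact gen _
  have h3 : ∀ i ∈ range (N + 1), ∑ p ∈ P0 i, a0 p / p ≤ (722 / L₀) * (1 / 2) ^ i := by
    intro i _
    have h4 : (1 : ℝ) ≤ 2 ^ i := one_le_pow₀ (by norm_num)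
    have h5 : 4 ≤ Real.log (X i) := by
      have := hlog i
      nlinarith
    refine (window_bound hB i h5).trans ?_
    have h6 : 722 / Real.log (X i) ≤ 722 / (L₀ * 2 ^ i) := by
      have : 0 < L₀ * 2 ^ i := by positivity
      gcongr
      exact hlog i
    refine h6.trans (le_of_eq ?_)
    rw [one_div, inv_pow]
    field_simp
  have h4 : ∑ i ∈ range (N + 1), (722 / L₀) * (1 / 2 : ℝ) ^ i ≤ 1444 / L₀ := by
    rw [← Finset.mul_sum]
    have : ∑ i ∈ range (N + 1), (1 / 2 : ℝ) ^ i ≤ 2 := by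
      have h := Summable.sum_le_tsum (range (N + 1)) (fun i _ => by positivity)
        summable_geometric_two
      rwa [tsum_geometric_two] at h
    calc 722 / L₀ * ∑ i ∈ range (N + 1), (1 / 2 : ℝ) ^ i ≤ 722 / L₀ * 2 := by gcongr
      _ = 1444 / L₀ := by ring
  exact h1.trans (h2.trans ((Finset.sum_le_sum h3).trans h4))

lemma gg_nonneg {C₁ : ℝ} {X : ℕ → ℕ} {P0 : ℕ → Finset ℕ} {a0 : ℕ → ℝ}
    (hB : Base C₁ X P0 a0) (Q j₀ : ℕ) (p : ℕ) : 0 ≤ gg Q j₀ a0 p := by
  unfold gg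
  split_ifs with h1 h2
  · by_contra hneg
    by_cases h : ∃ i, p ∈ P0 i
    · obtain ⟨i, hi⟩ := h
      rw [hB.val i p hi] at hneg
      exact hneg (Real.exp_pos _).le
    · push Not at h
      exact h1 (hB.off p h)
  · positivity
  · exact le_rfl

theorem taskG1 : TaskG1 := by
  intro Q hQ s hs
  set σ := Real.log (1 + s) with hσ
  have hσpos : 0 < σ := Real.log_pos (by linarith)
  -- threshold for the logarithm
  obtain ⟨J₀, hJ₀⟩ := exists_nat_gt (Real.exp (max 4 (1446 / σ)))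
  refine ⟨J₀, fun j₀ hj₀ C₁ X P0 a0 hB hX T => ?_⟩
  set N0 := j₀ ^ (2 * Q) with hN0
  have hj : Real.exp (max 4 (1446 / σ)) < j₀ := hJ₀.trans_le (by exact_mod_cast hj₀)
  have hj1 : 1 ≤ j₀ := by
    have : (0 : ℝ) < j₀ := (Real.exp_pos _).trans hj
    exact_mod_cast this
  have hjN : j₀ ≤ N0 := by
    rw [hN0]
    exact Nat.le_self_pow (by omega) j₀
  have hNr : Real.exp (max 4 (1446 / σ)) < N0 := hj.trans_le (by exact_mod_cast hjN)
  have hlogN : max 4 (1446 / σ) ≤ Real.log N0 := by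
    rw [← Real.log_exp (max 4 (1446 / σ))]
    exact Real.log_le_log (Real.exp_pos _) hNr.le
  have hlog4 : 4 ≤ Real.log N0 := (le_max_left _ _).trans hlogN
  have hlogσ : 1446 / σ ≤ Real.log N0 := (le_max_right _ _).trans hlogN
  have hN2 : 2 ≤ N0 := by
    have h1 : (2 : ℝ) < N0 := by
      have h2 : (1 : ℝ) + 4 ≤ Real.exp 4 := by
        have := Real.add_one_le_exp (4 : ℝ); linarith
      have h3 : Real.exp 4 ≤ Real.exp (max 4 (1446 / σ)) := Real.exp_le_exp.2 (le_max_left _ _)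
      linarith
    exact_mod_cast h1.le
  have hlogX : Real.log N0 ≤ Real.log (X 0) :=
    Real.log_le_log (by positivity) (by exact_mod_cast hX)
  have hgg := gg_nonneg hB Q j₀
  set S := (Iic (T.sup id)).filter Nat.Prime with hS
  have hsum : ∑ p ∈ S, gg Q j₀ a0 p / p ≤ σ := by
    rw [← Finset.sum_filter_add_sum_filter_not S (fun p => a0 p ≠ 0)]
    have e1 : ∑ p ∈ S.filter (fun p => a0 p ≠ 0), gg Q j₀ a0 p / p ≤ 1444 / Real.log N0 := by
      refine le_trans (le_of_eq ?_) (base_sum hB (Real.log N0) hlogX hlog4 S)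
      refine Finset.sum_congr rfl fun p hp => ?_
      have := (Finset.mem_filter.1 hp).2
      rw [gg, if_pos this]
    have e2 : ∑ p ∈ S.filter (fun p => ¬ a0 p ≠ 0), gg Q j₀ a0 p / p ≤ 2 / Real.log N0 := by
      have e3 : ∑ p ∈ S.filter (fun p => ¬ a0 p ≠ 0), gg Q j₀ a0 p / p ≤
          ∑ p ∈ S.filter (fun n => N0 < n), 2 / ((p : ℝ) * (Real.log p) ^ 2) := by
        have e4 : ∑ p ∈ S.filter (fun p => ¬ a0 p ≠ 0), gg Q j₀ a0 p / p =
            ∑ p ∈ (S.filter (fun p => ¬ a0 p ≠ 0)).filter (fun n => N0 < n),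
              2 / ((p : ℝ) * (Real.log p) ^ 2) := by
          rw [Finset.sum_filter (s := S.filter (fun p => ¬ a0 p ≠ 0))]
          refine Finset.sum_congr rfl fun p hp => ?_
          have := (Finset.mem_filter.1 hp).2
          rw [gg, if_neg this]
          by_cases h : j₀ ^ (2 * Q) < p
          · rw [if_pos h, if_pos h]
            rw [div_div, mul_comm]
          · rw [if_neg h, if_neg h, zero_div]
        rw [e4]
        refine Finset.sum_le_sum_of_subset_of_nonneg ?_ fun p _ _ => by positivity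
        intro p hp
        simp only [Finset.mem_filter] at hp ⊢
        exact ⟨hp.1.1, hp.2⟩
      exact e3.trans (sum_log_le N0 hN2 S)
    have e5 : 1444 / Real.log N0 + 2 / Real.log N0 = 1446 / Real.log N0 := by ring
    have e6 : 1446 / Real.log N0 ≤ σ := by
      rw [div_le_iff₀ (by linarith)]
      rw [div_le_iff₀ hσpos] at hlogσ
      linarith
    linarith
  have h := sum_sqfree_le T (gg Q j₀ a0) hgg σ hsum
  refine h.trans ?_
  rw [hσ, Real.exp_log (by linarith)]
  linarith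

end Pool.Agent.H312F.BC
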